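import Pool.Agent.U243.AK.Dich

/-!
# The Tukey dichotomy for the weakly compact subsets of a separable ball is not provable in ZFC

If there is a coanalytic set `C` of reals of cardinality `ℵ₁` and no family of `ℵ₁` functions is
cofinal in `ω^ω` (that is, `ℵ₁ < 𝔡`), then there is a separable Banach space `X` which is not
strongly weakly compactly generated, so that `AK(B_X) ⪯ ω` fails, and for which `ω^ω ⪯ AK(B_X)`
fails too. Both hypotheses hold in the extension of the constructible universe by `ℵ₂` Cohen reals.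
-/

open Set Filter Topology

namespace Pool.Agent.Results.MP_c88f67_an.DichotomyFails

open Pool.Agent.Helper639.Tk Pool.Agent.U243.AK

/-- Suppose that `C` is a coanalytic subset of the Cantor space of cardinality `ℵ₁` and that no
set of at most `ℵ₁` functions is cofinal in `ω^ω`. Then there is a separable Banach space `X` which
is not strongly weakly compactly generated and such that neither `AK(B_X) ⪯ ω` nor
`ω^ω ⪯ AK(B_X)`. -/
theorem result (C : Set (ℕ → Bool)) (hC : MeasureTheory.AnalyticSet Cᶜ)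
    (h1 : Cardinal.mk C = Cardinal.aleph 1)
    (h2 : ∀ F : Set (ℕ → ℕ), Cardinal.mk F ≤ Cardinal.aleph 1 →
      ∃ p : ℕ → ℕ, ∀ q ∈ F, ¬ p ≤ q) :
    ∃ (X : Type) (_ : NormedAddCommGroup X) (_ : NormedSpace ℝ X),
      CompleteSpace X ∧ TopologicalSpace.SeparableSpace X ∧
      ¬ SWCG X ∧ ¬ AKLe X ℕ ∧ ¬ LeAK (ℕ → ℕ) X := by
  have hlt : Cardinal.aleph 1 < Cardinal.continuum.{0} := by
    by_contra hcon
    push Not at hcon
    obtain ⟨p, hp⟩ := h2 Set.univ (by
      rw [Cardinal.mk_univ, ← Cardinal.power_def, Cardinal.mk_nat,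
        Cardinal.aleph0_power_aleph0]
      exact hcon)
    exact hp p (mem_univ _) le_rfl
  have hunc : Uncountable C := by
    rw [← Cardinal.aleph0_lt_mk_iff, h1, ← Cardinal.aleph_zero]
    exact Cardinal.aleph_lt_aleph.2 zero_lt_one
  have hφ : ∃ φ : (ℕ → ℕ) → (ℕ → Bool), Continuous φ ∧ Set.range φ = Cᶜ := by
    rw [MeasureTheory.AnalyticSet] at hC
    rcases hC with h | h
    · exfalso
      have h3 : C = Set.univ := by
        rw [← compl_compl C, h, Set.compl_empty]
      have h5 := h1
      rw [h3, Cardinal.mk_univ] at h5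
      have h4 : Cardinal.mk (ℕ → Bool) = Cardinal.continuum := by
        rw [← Cardinal.power_def, Cardinal.mk_bool, Cardinal.mk_nat, Cardinal.two_power_aleph0]
      rw [h4] at h5
      exact hlt.ne h5.symm
    · exact h
  obtain ⟨φ, hφc, hφr⟩ := hφ
  have hCe : C = (Set.range φ)ᶜ := by rw [hφr, compl_compl]
  subst hCe
  have hinf : ((Set.range φ)ᶜ : Set (ℕ → Bool)).Infinite := by
    intro hf
    have := hf.countable
    exact (Set.countable_coe_iff.not.1 (not_countable_iff.2 hunc)) this
  have key1 := akb_le hφc (h1 ▸ hlt) hinf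
  have key2 := le_akb hφc (h1 ▸ hlt)
  have hω : ¬ AKLe (Pool.Agent.Helper639.Tk.X φ) ℕ := by
    intro h
    refine not_le_of_bdd (fun f => ?_) (key2.trans h.asymp)
    obtain ⟨S, hS, b, hb⟩ := infinite_bdd_nat (fun c (_ : ℕ) => f c)
    refine ⟨S, hS, b 0, ?_⟩
    rintro _ ⟨c, hc, rfl⟩
    exact hb ⟨c, hc, rfl⟩ 0
  exact ⟨Pool.Agent.Helper639.Tk.X φ, inferInstance, inferInstance, inferInstance, separable_X,
    fun h => hω h.akLe, hω, fun h => not_nat_le h1 h2 (h.asymp.trans key1)⟩

end Pool.Agent.Results.MP_c88f67_an.DichotomyFails
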